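import Pool.Agent.SDD.Defs
import Pool.Agent.Helper67.SDet.Red

/-!
# The permanent of the superblock matrix (second wave)
-/

open MvPolynomial Finset

namespace Pool.SDD

universe u
variable {K : Type u} [Field K]

/-- R1: the permanent of the superblock matrix; the substitution at `tau = 0` does not
depend on the choice of the omitted special rows and columns -/
theorem R1 {n D N a : ℕ} (hn : D * (2 * (N + a) + 1) ≤ n) :
    ∃ (φ0 : Fin n × Fin n → MvPolynomial ((Fin D ⊕ Fin D) × Option (Fin N)) K)
      (φ : ((Fin D ⊕ Fin D) → Fin (a + 1)) → Fin n × Fin n →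
        MvPolynomial (((Fin D ⊕ Fin D) × Option (Fin N)) ⊕ Fin D) K),
      (∀ k x, (φ k x).totalDegree ≤ 1) ∧
      (∀ k x, aeval (Sum.elim X 0 : _ → MvPolynomial ((Fin D ⊕ Fin D) × Option (Fin N)) K)
        (φ k x) = φ0 x) ∧
      ∀ k, aeval (φ k) (Matrix.of fun i j => (X (i, j) : MvPolynomial (Fin n × Fin n) K)).permanent =
        rename Sum.inl (∏ b, rename (fun v => (b, v)) (Pool.SDL.bp K N a (k b))) *
          ∏ i : Fin D, X (Sum.inr i) :=
  Pool.Agent.SDet.R1 hn

end Pool.SDD
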